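import Pool.Agent.Helper80.RV.Defs

/-!
Easy facts on the filtration `fil`.
-/

set_option autoImplicit false

namespace Pool.Agent.SQ.RV

open MvPolynomial

universe u

variable {k : Type u} [Field k] {N q : ℕ}

private theorem h11_le_sat (I : Ideal (MvPolynomial (Fin (N + 1)) k)) : I ≤ sat I :=
  fun p hp => ⟨0, fun l => by simpa using hp⟩

private theorem h11_sat_mono {I I' : Ideal (MvPolynomial (Fin (N + 1)) k)} (h : I ≤ I') : sat I ≤ sat I' := by
  rintro p ⟨M, hM⟩
  exact ⟨M, fun l => h (hM l)⟩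

private theorem h11_wid_anti {R : Type*} [CommSemiring R] (J : Fin q → Ideal R) (u : Fin q → ℕ) {x x' : ℕ} (h : x ≤ x') :
    wid J u x' ≤ wid J u x := by
  unfold wid
  refine iSup_le fun b => ?_
  exact le_iSup (fun b : {b : Fin q → ℕ // x ≤ ∑ i, u i * b i} => ∏ i, J i ^ b.1 i) ⟨b.1, h.trans b.2⟩

theorem fil_zero (P : Ideal (MvPolynomial (Fin (N + 1)) k)) (J : Fin q → Ideal (MvPolynomial (Fin (N + 1)) k))
    (u : Fin q → ℕ) : fil P J u 0 = ⊤ := by
  rw [eq_top_iff]
  have h : (⊤ : Ideal (MvPolynomial (Fin (N + 1)) k)) ≤ wid J u 0 := by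
    unfold wid
    refine le_trans ?_ (le_iSup (fun b : {b : Fin q → ℕ // 0 ≤ ∑ i, u i * b i} => ∏ i, J i ^ b.1 i) ⟨fun _ => 0, by simp⟩)
    simp
  exact h.trans (le_sup_right.trans (h11_le_sat _))

theorem fil_anti (P : Ideal (MvPolynomial (Fin (N + 1)) k)) (J : Fin q → Ideal (MvPolynomial (Fin (N + 1)) k))
    (u : Fin q → ℕ) : Antitone (fil P J u) :=
  fun _ _ h => h11_sat_mono (sup_le_sup le_rfl (h11_wid_anti J u h))

theorem le_fil (P : Ideal (MvPolynomial (Fin (N + 1)) k)) (J : Fin q → Ideal (MvPolynomial (Fin (N + 1)) k))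
    (u : Fin q → ℕ) (x : ℕ) : P ≤ fil P J u x := le_sup_left.trans (h11_le_sat _)

private theorem h11_wid_single {R : Type*} [CommSemiring R] (J : Fin q → Ideal R) (i : Fin q) (x : ℕ) :
    wid J (Pi.single i 1) x = J i ^ x := by
  classical
  unfold wid
  apply le_antisymm
  · refine iSup_le fun b => ?_
    have hb : x ≤ b.1 i := by
      have h := b.2
      rw [Finset.sum_eq_single i (fun j _ hj => by rw [Pi.single_eq_of_ne hj, zero_mul])
        (fun h => absurd (Finset.mem_univ i) h), Pi.single_eq_same, one_mul] at h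
      exact h
    rw [← Finset.mul_prod_erase _ _ (Finset.mem_univ i)]
    exact Ideal.mul_le_left.trans (Ideal.pow_le_pow_right hb)
  · refine le_trans ?_ (le_iSup (fun b : {b : Fin q → ℕ // x ≤ ∑ j, (Pi.single i 1 : Fin q → ℕ) j * b j} =>
      ∏ j, J j ^ b.1 j) ⟨Pi.single i x, ?_⟩)
    · rw [← Finset.mul_prod_erase _ _ (Finset.mem_univ i)]
      have e : ∏ j ∈ Finset.univ.erase i, J j ^ (Pi.single i x : Fin q → ℕ) j = 1 := by
        refine Finset.prod_eq_one fun j hj => ?_
        rw [Pi.single_eq_of_ne (Finset.ne_of_mem_erase hj), pow_zero]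
      change J i ^ x ≤ J i ^ (Pi.single i x : Fin q → ℕ) i * ∏ j ∈ Finset.univ.erase i, J j ^ (Pi.single i x : Fin q → ℕ) j
      rw [e, mul_one, Pi.single_eq_same]
    · rw [Finset.sum_eq_single i (fun j _ hj => by rw [Pi.single_eq_of_ne hj, zero_mul])
        (fun h => absurd (Finset.mem_univ i) h), Pi.single_eq_same, Pi.single_eq_same, one_mul]

theorem fil_single (P : Ideal (MvPolynomial (Fin (N + 1)) k)) (J : Fin q → Ideal (MvPolynomial (Fin (N + 1)) k))
    (i : Fin q) (x : ℕ) : fil P J (Pi.single i 1) x = sat (P ⊔ J i ^ x) := by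
  unfold fil
  rw [h11_wid_single]

end Pool.Agent.SQ.RV
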