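import Mathlib

/-!
Monomial ideals of a permutable regular sequence (any commutative ring).

`mid φ M` is the ideal generated by the monomials `∏ i, φ i ^ b i`, `b ∈ M`. If the `φ i`, `i ∈ S`, form a permutable
regular sequence (`PR φ S`), and the up-closed sets `M`, `N` of exponents depend only on the coordinates in `S`, then
`mid φ M ⊓ mid φ N = mid φ (M ∩ N)`.
-/

set_option linter.unusedSectionVars false

namespace Pool.Agent.RV

universe u v

section

variable {ι : Type v} [Fintype ι] [DecidableEq ι] {A : Type u} [CommRing A]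

/-- The monomial with exponents `b`. -/
def mon (φ : ι → A) (b : ι → ℕ) : A := ∏ i, φ i ^ b i

/-- The ideal generated by the monomials with exponents in `M`. -/
def mid (φ : ι → A) (M : Set (ι → ℕ)) : Ideal A := Ideal.span (mon φ '' M)

/-- `M` is closed under enlarging exponents. -/
def Up (M : Set (ι → ℕ)) : Prop := ∀ b ∈ M, ∀ c, b ≤ c → c ∈ M

/-- `M` depends only on the coordinates in `S` (for an up-closed `M`). -/
def Det (S : Finset ι) (M : Set (ι → ℕ)) : Prop := ∀ b ∈ M, (fun i => if i ∈ S then b i else 0) ∈ M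

/-- Permutable regular sequence: each `φ i` is regular modulo the ideal generated by any of the others. -/
def PR (φ : ι → A) (S : Finset ι) : Prop :=
  ∀ i ∈ S, ∀ T ⊆ S, i ∉ T → ∀ a, φ i * a ∈ Ideal.span (φ '' (T : Set ι)) → a ∈ Ideal.span (φ '' (T : Set ι))

theorem PR.mono {φ : ι → A} {S T : Finset ι} (h : PR φ S) (hT : T ⊆ S) : PR φ T :=
  fun i hi U hU hiU a ha => h i (hT hi) U (hU.trans hT) hiU a ha

theorem mid_mono {φ : ι → A} {M N : Set (ι → ℕ)} (h : M ⊆ N) : mid φ M ≤ mid φ N :=
  Ideal.span_mono (Set.image_mono h)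

theorem mon_mem {φ : ι → A} {M : Set (ι → ℕ)} {b : ι → ℕ} (h : b ∈ M) : mon φ b ∈ mid φ M :=
  Ideal.subset_span ⟨b, h, rfl⟩

theorem mon_add (φ : ι → A) (b c : ι → ℕ) : mon φ (b + c) = mon φ b * mon φ c := by
  unfold mon
  rw [← Finset.prod_mul_distrib]
  exact Finset.prod_congr rfl fun i _ => pow_add _ _ _

theorem mon_single (φ : ι → A) (z : ι) : mon φ (Pi.single z 1) = φ z := by
  unfold mon
  rw [Finset.prod_eq_single z]
  · simp
  · intro i _ hi
    simp [Pi.single_eq_of_ne hi]
  · intro h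
    exact absurd (Finset.mem_univ z) h

theorem mon_le (φ : ι → A) {b c : ι → ℕ} (h : b ≤ c) : mon φ c ∈ Ideal.span {mon φ b} := by
  have : c = b + (c - b) := by
    funext i
    have h1 : b i ≤ c i := h i
    simp only [Pi.add_apply, Pi.sub_apply]
    omega
  rw [this, mon_add]
  exact Ideal.mul_mem_right _ _ (Ideal.subset_span rfl)

theorem mid_union (φ : ι → A) (M N : Set (ι → ℕ)) : mid φ (M ∪ N) = mid φ M ⊔ mid φ N := by
  unfold mid
  rw [Set.image_union, Ideal.span_union]

/-- the slice `z = 0` -/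
def sl0 (z : ι) (M : Set (ι → ℕ)) : Set (ι → ℕ) := {b | Function.update b z 0 ∈ M}

/-- the shifted set -/
def sh (z : ι) (M : Set (ι → ℕ)) : Set (ι → ℕ) := {b | b + Pi.single z 1 ∈ M}

theorem Up.sl0 {z : ι} {M : Set (ι → ℕ)} (h : Up M) : Up (sl0 z M) := by
  intro b hb c hbc
  refine h _ hb _ ?_
  intro i
  by_cases hi : i = z
  · subst hi; simp
  · simpa [Function.update_of_ne hi] using hbc i

theorem Up.sh {z : ι} {M : Set (ι → ℕ)} (h : Up M) : Up (sh z M) := by
  intro b hb c hbc
  exact h _ hb _ (add_le_add_left hbc _)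

theorem sl0_subset {z : ι} {M : Set (ι → ℕ)} (h : Up M) : sl0 z M ⊆ M := by
  intro b hb
  refine h _ hb _ ?_
  intro i
  by_cases hi : i = z
  · subst hi; simp
  · simp [Function.update_of_ne hi]

theorem subset_sh {z : ι} {M : Set (ι → ℕ)} (h : Up M) : M ⊆ sh z M := by
  intro b hb
  exact h _ hb _ (le_add_of_nonneg_right (by intro i; exact Nat.zero_le _))

theorem sl0_subset_sh {z : ι} {M : Set (ι → ℕ)} (h : Up M) : sl0 z M ⊆ sh z M :=
  (sl0_subset h).trans (subset_sh h)

theorem Det.sl0 {z : ι} {S : Finset ι} (hz : z ∉ S) {M : Set (ι → ℕ)} (h : Det (insert z S) M) (hU : Up M) :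
    Det S (sl0 z M) := by
  intro b hb
  have h1 := h _ hb
  show Function.update _ z 0 ∈ M
  refine hU _ h1 _ ?_
  intro i
  by_cases hi : i = z
  · subst hi; simp
  · simp only [Function.update_of_ne hi]
    by_cases hS : i ∈ S
    · simp [hS]
    · simp [hi, hS]

theorem Det.sh {z : ι} {S : Finset ι} {M : Set (ι → ℕ)} (h : Det (insert z S) M) (hU : Up M) :
    Det (insert z S) (sh z M) := by
  intro b hb
  have h1 := h _ hb
  show _ + _ ∈ M
  refine hU _ h1 _ ?_
  intro i
  by_cases hi : i = z
  · subst hi; simp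
  · by_cases hS : i ∈ insert z S
    · simp only [if_pos hS, Pi.add_apply]
      exact le_rfl
    · simp only [if_neg hS]
      exact Nat.zero_le _

/-- the level of `M` in the direction `z` is at most `J` -/
def Lev (z : ι) (J : ℕ) (M : Set (ι → ℕ)) : Prop := ∀ b ∈ M, Function.update b z (min (b z) J) ∈ M

theorem Lev.sh {z : ι} {J : ℕ} {M : Set (ι → ℕ)} (h : Lev z (J + 1) M) : Lev z J (sh z M) := by
  intro b hb
  have h1 := h _ hb
  show _ + _ ∈ M
  convert h1 using 1
  funext i
  by_cases hi : i = z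
  · subst hi; simp
  · simp [Function.update_of_ne hi]

theorem Lev.det {z : ι} {S : Finset ι} (hz : z ∉ S) {M : Set (ι → ℕ)} (h : Lev z 0 M) (hD : Det (insert z S) M)
    (hU : Up M) : Det S M := by
  intro b hb
  have h1 := hD _ (h _ hb)
  refine hU _ h1 _ ?_
  intro i
  by_cases hi : i = z
  · subst hi; simp [hz]
  · by_cases hS : i ∈ S
    · simp [hS, Function.update_of_ne hi]
    · simp [hi, hS]

/-- decomposition along `z` -/
theorem mem_split {φ : ι → A} (z : ι) {M : Set (ι → ℕ)} {f : A} (hf : f ∈ mid φ M) :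
    ∃ a ∈ mid φ (sl0 z M), ∃ g ∈ mid φ (sh z M), f = a + φ z * g := by
  unfold mid at hf
  induction hf using Submodule.span_induction with
  | mem x hx =>
    obtain ⟨b, hb, rfl⟩ := hx
    rcases Nat.eq_zero_or_pos (b z) with h0 | h0
    · refine ⟨mon φ b, mon_mem ?_, 0, zero_mem _, by simp⟩
      show Function.update b z 0 ∈ M
      rwa [← h0, Function.update_eq_self]
    · have h1 : b = (b - Pi.single z 1) + Pi.single z 1 := by
        funext i
        by_cases hi : i = z
        · subst hi; simp; omega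
        · simp [Pi.single_eq_of_ne hi]
      refine ⟨0, zero_mem _, mon φ (b - Pi.single z 1), mon_mem ?_, ?_⟩
      · show _ + _ ∈ M
        rwa [← h1]
      · rw [zero_add]
        conv_lhs => rw [h1]
        rw [mon_add, mon_single]
        ring
  | zero => exact ⟨0, zero_mem _, 0, zero_mem _, by simp⟩
  | add x y _ _ hx hy =>
    obtain ⟨a, ha, g, hg, rfl⟩ := hx
    obtain ⟨a', ha', g', hg', rfl⟩ := hy
    exact ⟨a + a', add_mem ha ha', g + g', add_mem hg hg', by ring⟩
  | smul c x _ hx =>
    obtain ⟨a, ha, g, hg, rfl⟩ := hx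
    exact ⟨c * a, Ideal.mul_mem_left _ _ ha, c * g, Ideal.mul_mem_left _ _ hg, by
      rw [smul_eq_mul]; ring⟩

theorem mul_mem_sh {φ : ι → A} {z : ι} {M : Set (ι → ℕ)} {g : A} (hg : g ∈ mid φ (sh z M)) :
    φ z * g ∈ mid φ M := by
  unfold mid at hg
  induction hg using Submodule.span_induction with
  | mem x hx =>
    obtain ⟨b, hb, rfl⟩ := hx
    have : φ z * mon φ b = mon φ (b + Pi.single z 1) := by rw [mon_add, mon_single]; ring
    rw [this]
    exact mon_mem hb
  | zero => simp
  | add x y _ _ hx hy => rw [mul_add]; exact add_mem hx hy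
  | smul c x _ hx => rw [smul_eq_mul, mul_left_comm]; exact Ideal.mul_mem_left _ _ hx

/-- the up-closure of finitely many exponents supported in `S` -/
theorem exists_fin {φ : ι → A} {S : Finset ι} {M : Set (ι → ℕ)} (hU : Up M) (hD : Det S M) {f : A} (hf : f ∈ mid φ M) :
    ∃ M' ⊆ M, Up M' ∧ Det S M' ∧ (∀ z, ∃ J, ∀ J' ≥ J, Lev z J' M') ∧ f ∈ mid φ M' := by
  unfold mid at hf
  obtain ⟨F, hF, hfF⟩ := Submodule.mem_span_finite_of_mem_span hf
  classical
  -- choose exponents
  have h1 : ∀ x ∈ F, ∃ b ∈ M, mon φ b = x := fun x hx => hF hx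
  choose! e he hex using h1
  let r : (ι → ℕ) → (ι → ℕ) := fun b i => if i ∈ S then b i else 0
  let G : Finset (ι → ℕ) := F.image fun x => r (e x)
  refine ⟨{b | ∃ c ∈ G, c ≤ b}, ?_, ?_, ?_, ?_, ?_⟩
  · rintro b ⟨c, hc, hcb⟩
    obtain ⟨x, hx, rfl⟩ := Finset.mem_image.1 hc
    exact hU _ (hD _ (he x hx)) _ hcb
  · rintro b ⟨c, hc, hcb⟩ d hbd
    exact ⟨c, hc, hcb.trans hbd⟩
  · rintro b ⟨c, hc, hcb⟩
    refine ⟨c, hc, ?_⟩
    obtain ⟨x, hx, rfl⟩ := Finset.mem_image.1 hc
    intro i
    by_cases hi : i ∈ S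
    · simpa [r, hi] using hcb i
    · simp [r, hi]
  · intro z
    refine ⟨G.sup fun c => c z, fun J' hJ => ?_⟩
    rintro b ⟨c, hc, hcb⟩
    refine ⟨c, hc, ?_⟩
    intro i
    by_cases hi : i = z
    · subst hi
      simp only [Function.update_self]
      exact le_min (hcb i) (le_trans (Finset.le_sup (f := fun c : ι → ℕ => c i) hc) hJ)
    · simpa [Function.update_of_ne hi] using hcb i
  · refine Submodule.span_le.2 ?_ hfF
    intro x hx
    have h2 := mon_le φ (b := r (e x)) (c := e x) (by
      intro i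
      by_cases hi : i ∈ S
      · simp [r, hi]
      · simp [r, hi])
    rw [hex x hx] at h2
    refine Ideal.span_le.2 ?_ h2
    intro y hy
    rw [Set.mem_singleton_iff.1 hy]
    exact mon_mem ⟨_, Finset.mem_image_of_mem _ hx, le_rfl⟩

/-- the sequence modulo `φ z` -/
theorem PR.quot {φ : ι → A} {S : Finset ι} {z : ι} (hz : z ∉ S) (h : PR φ (insert z S)) :
    PR (fun i => Ideal.Quotient.mk (Ideal.span {φ z}) (φ i)) S := by
  intro i hi T hT hiT a ha
  obtain ⟨a, rfl⟩ := Ideal.Quotient.mk_surjective a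
  have key : ∀ x : A, Ideal.Quotient.mk (Ideal.span {φ z}) x ∈
      Ideal.span ((fun i => Ideal.Quotient.mk (Ideal.span {φ z}) (φ i)) '' (T : Set ι)) ↔
      x ∈ Ideal.span (φ '' ((insert z T : Finset ι) : Set ι)) := by
    intro x
    have e1 : Ideal.span ((fun i => Ideal.Quotient.mk (Ideal.span {φ z}) (φ i)) '' (T : Set ι)) =
        Ideal.map (Ideal.Quotient.mk (Ideal.span {φ z})) (Ideal.span (φ '' (T : Set ι))) := by
      rw [Ideal.map_span, Set.image_image]
    have e2 : Ideal.span (φ '' ((insert z T : Finset ι) : Set ι)) =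
        Ideal.span (φ '' (T : Set ι)) ⊔ Ideal.span {φ z} := by
      rw [Finset.coe_insert, Set.image_insert_eq, Ideal.span_insert, sup_comm]
    rw [e1, e2, Ideal.mem_quotient_iff_mem_sup]
  rw [← map_mul, key] at ha
  rw [key]
  refine h i (Finset.mem_insert_of_mem hi) (insert z T) (Finset.insert_subset_insert _ hT) ?_ a ha
  rw [Finset.mem_insert]
  rintro (rfl | h1)
  · exact hz hi
  · exact hiT h1

theorem map_mid {B : Type u} [CommRing B] (g : A →+* B) (φ : ι → A) (M : Set (ι → ℕ)) :
    (mid φ M).map g = mid (fun i => g (φ i)) M := by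
  unfold mid
  rw [Ideal.map_span, Set.image_image]
  congr 1
  refine Set.image_congr fun b _ => ?_
  unfold mon
  rw [map_prod]
  exact Finset.prod_congr rfl fun i _ => map_pow _ _ _

/-- an element regular modulo the sequence is regular modulo the monomial ideals. -/
theorem reg_mid (S : Finset ι) : ∀ (A : Type u) [CommRing A] (φ : ι → A) (y : ι), y ∉ S → PR φ (insert y S) →
    ∀ (M : Set (ι → ℕ)), Up M → Det S M → ∀ f : A, φ y * f ∈ mid φ M → f ∈ mid φ M := by
  induction S using Finset.induction_on with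
  | empty =>
    intro A _ φ y hy hP M hU hD f hf
    by_cases hM : (0 : ι → ℕ) ∈ M
    · have : (1 : A) ∈ mid φ M := by
        have := mon_mem (φ := φ) hM
        simpa [mon] using this
      rw [(Ideal.eq_top_iff_one _).2 this]
      trivial
    · have hM : M = ∅ := by
        rw [Set.eq_empty_iff_forall_notMem]
        intro b hb
        apply hM
        have h1 := hD b hb
        simp only [Finset.notMem_empty, if_false] at h1
        exact h1
      subst hM
      have h0 := hP y (Finset.mem_insert_self _ _) ∅ (Finset.empty_subset _) (Finset.notMem_empty _) f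
      simp only [Finset.coe_empty, Set.image_empty] at h0
      simp only [mid, Set.image_empty] at hf ⊢
      exact h0 hf
  | insert z S hz ih =>
    intro A _ φ y hy hP M hU hD f hf
    have hyz : y ≠ z := fun h => hy (h ▸ Finset.mem_insert_self _ _)
    have hyS : y ∉ S := fun h => hy (Finset.mem_insert_of_mem h)
    have hPz : PR φ (insert z S) := hP.mono (Finset.subset_insert _ _)
    have hPy : PR φ (insert y S) := hP.mono (Finset.insert_subset_insert _ (Finset.subset_insert _ _))
    -- the colon lemma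
    have colon : ∀ (M : Set (ι → ℕ)), Up M → Det (insert z S) M → ∀ g : A, φ z * g ∈ mid φ M → g ∈ mid φ (sh z M) := by
      intro M hU hD g hg
      obtain ⟨a, ha, g1, hg1, e⟩ := mem_split z hg
      have h1 : φ z * (g - g1) ∈ mid φ (sl0 z M) := by
        rw [mul_sub, e]
        simpa using ha
      have h2 := ih A φ z hz hPz _ hU.sl0 (hD.sl0 hz hU) _ h1
      have h3 := mid_mono (φ := φ) (sl0_subset_sh hU) h2
      have := add_mem h3 hg1
      simpa using this
    obtain ⟨M', hM', hU', hD', hL', hf'⟩ := exists_fin hU hD hf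
    obtain ⟨J, hJ⟩ := hL' z
    have main : ∀ (J : ℕ) (M : Set (ι → ℕ)), Up M → Det (insert z S) M → Lev z J M → ∀ f : A, φ y * f ∈ mid φ M →
        f ∈ mid φ M := by
      intro J
      induction J with
      | zero =>
        intro M hU hD hL f hf
        exact ih A φ y hyS hPy M hU (hL.det hz hD hU) f hf
      | succ J ihJ =>
        intro M hU hD hL f hf
        obtain ⟨a0, ha0, g, hg, e⟩ := mem_split z hf
        have hq : PR (fun i => Ideal.Quotient.mk (Ideal.span {φ z}) (φ i)) (insert y S) := by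
          refine PR.quot (z := z) (S := insert y S) ?_ ?_
          · rw [Finset.mem_insert]
            rintro (h | h)
            · exact hyz h.symm
            · exact hz h
          · rw [Finset.insert_comm]
            exact hP
        have h1 := ih (A ⧸ Ideal.span {φ z}) (fun i => Ideal.Quotient.mk (Ideal.span {φ z}) (φ i)) y hyS hq
          (sl0 z M) hU.sl0 (hD.sl0 hz hU) (Ideal.Quotient.mk _ f) (by
            rw [← map_mul, e, map_add, map_mul, ← map_mid]
            have : Ideal.Quotient.mk (Ideal.span {φ z}) (φ z) = 0 :=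
              Ideal.Quotient.eq_zero_iff_mem.2 (Ideal.subset_span rfl)
            rw [this, zero_mul, add_zero]
            exact Ideal.mem_map_of_mem _ ha0)
        rw [← map_mid, Ideal.mem_quotient_iff_mem_sup, Submodule.mem_sup] at h1
        obtain ⟨a, ha, b, hb, hab⟩ := h1
        obtain ⟨f', rfl⟩ := Ideal.mem_span_singleton'.1 hb
        have ha' : a ∈ mid φ M := mid_mono (sl0_subset hU) ha
        have h2 : φ z * (φ y * f') ∈ mid φ M := by
          have : φ z * (φ y * f') = φ y * f - φ y * a := by rw [← hab]; ring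
          rw [this]
          exact sub_mem hf (Ideal.mul_mem_left _ _ ha')
        have h3 := ihJ _ hU.sh (hD.sh hU) hL.sh f' (colon M hU hD _ h2)
        have h4 := mul_mem_sh h3
        rw [← hab, mul_comm f']
        exact add_mem ha' h4
    exact mid_mono hM' (main J M' hU' hD' (hJ J le_rfl) f hf')

theorem colon_mid {φ : ι → A} {z : ι} {S : Finset ι} (hz : z ∉ S) (hP : PR φ (insert z S)) {M : Set (ι → ℕ)}
    (hU : Up M) (hD : Det (insert z S) M) {g : A} (hg : φ z * g ∈ mid φ M) : g ∈ mid φ (sh z M) := by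
  obtain ⟨a, ha, g1, hg1, e⟩ := mem_split z hg
  have h1 : φ z * (g - g1) ∈ mid φ (sl0 z M) := by
    rw [mul_sub, e]
    simpa using ha
  have h2 := reg_mid S A φ z hz hP _ hU.sl0 (hD.sl0 hz hU) _ h1
  have h3 := mid_mono (φ := φ) (sl0_subset_sh hU) h2
  have := add_mem h3 hg1
  simpa using this

theorem mid_inf_aux (φ : ι → A) (S : Finset ι) : PR φ S → ∀ (M N : Set (ι → ℕ)), Up M → Up N → Det S M → Det S N →
    mid φ M ⊓ mid φ N ≤ mid φ (M ∩ N) := by
  induction S using Finset.induction_on with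
  | empty =>
    intro _ M N hM hN hDM hDN f hf
    rcases M.eq_empty_or_nonempty with rfl | ⟨b, hb⟩
    · simpa [mid] using hf.1
    rcases N.eq_empty_or_nonempty with rfl | ⟨c, hc⟩
    · simpa [mid] using hf.2
    have h1 : (0 : ι → ℕ) ∈ M := by
      have h1 := hDM b hb
      simp only [Finset.notMem_empty, if_false] at h1
      exact h1
    have h2 : (0 : ι → ℕ) ∈ N := by
      have h1 := hDN c hc
      simp only [Finset.notMem_empty, if_false] at h1
      exact h1
    have : (1 : A) ∈ mid φ (M ∩ N) := by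
      have := mon_mem (φ := φ) (M := M ∩ N) ⟨h1, h2⟩
      simpa [mon] using this
    rw [(Ideal.eq_top_iff_one _).2 this]
    trivial
  | insert z S hz ih =>
    intro hP M N hM hN hDM hDN f hf
    have hPS : PR φ S := hP.mono (Finset.subset_insert _ _)
    have main : ∀ (J : ℕ) (M N : Set (ι → ℕ)), Up M → Up N → Det (insert z S) M → Det (insert z S) N → Lev z J M →
        Lev z J N → ∀ f, f ∈ mid φ M → f ∈ mid φ N → f ∈ mid φ (M ∩ N) := by
      intro J
      induction J with
      | zero =>
        intro M N hM hN hDM hDN hLM hLN f hf hf'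
        exact ih hPS M N hM hN (hLM.det hz hDM hM) (hLN.det hz hDN hN) ⟨hf, hf'⟩
      | succ J ihJ =>
        intro M N hM hN hDM hDN hLM hLN f hf hf'
        obtain ⟨a, ha, g, hg, e⟩ := mem_split z hf
        obtain ⟨b, hb, h, hh, e'⟩ := mem_split z hf'
        have h1 : φ z * (h - g) ∈ mid φ (sl0 z M ∪ sl0 z N) := by
          have : φ z * (h - g) = a - b := by linear_combination e - e'
          rw [this, mid_union]
          exact sub_mem (Ideal.mem_sup_left ha) (Ideal.mem_sup_right hb)
        have h2 := reg_mid S A φ z hz hP _ (by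
          rintro b (hb | hb) c hbc
          · exact Or.inl (hM.sl0 _ hb _ hbc)
          · exact Or.inr (hN.sl0 _ hb _ hbc)) (by
          rintro b (hb | hb)
          · exact Or.inl (hDM.sl0 hz hM _ hb)
          · exact Or.inr (hDN.sl0 hz hN _ hb)) _ h1
        rw [mid_union, Submodule.mem_sup] at h2
        obtain ⟨c1, hc1, c2, hc2, hc⟩ := h2
        -- `h - g = c1 + c2`
        have hgA : a - φ z * c1 ∈ mid φ (sl0 z M) := sub_mem ha (Ideal.mul_mem_left _ _ hc1)
        have hgB : a - φ z * c1 ∈ mid φ (sl0 z N) := by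
          have : a - φ z * c1 = b + φ z * c2 := by linear_combination e' - e - φ z * hc
          rw [this]
          exact add_mem hb (Ideal.mul_mem_left _ _ hc2)
        have h3 := ih hPS _ _ hM.sl0 hN.sl0 (hDM.sl0 hz hM) (hDN.sl0 hz hN) ⟨hgA, hgB⟩
        have h4 : g + c1 ∈ mid φ (sh z M) := add_mem hg (mid_mono (sl0_subset_sh hM) hc1)
        have h5 : g + c1 ∈ mid φ (sh z N) := by
          have : g + c1 = h - c2 := by linear_combination hc
          rw [this]
          exact sub_mem hh (mid_mono (sl0_subset_sh hN) hc2)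
        have h6 := ihJ _ _ hM.sh hN.sh (hDM.sh hM) (hDN.sh hN) hLM.sh hLN.sh _ h4 h5
        have h7 : φ z * (g + c1) ∈ mid φ (M ∩ N) := mul_mem_sh (M := M ∩ N) h6
        have h8 : a - φ z * c1 ∈ mid φ (M ∩ N) := by
          refine mid_mono ?_ h3
          rintro b ⟨hb1, hb2⟩
          exact ⟨sl0_subset hM hb1, sl0_subset hN hb2⟩
        have : f = (a - φ z * c1) + φ z * (g + c1) := by rw [e]; ring
        rw [this]
        exact add_mem h8 h7
    obtain ⟨M', hM', hU', hD', hL', hf1⟩ := exists_fin hM hDM hf.1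
    obtain ⟨N', hN', hU'', hD'', hL'', hf2⟩ := exists_fin hN hDN hf.2
    obtain ⟨J1, hJ1⟩ := hL' z
    obtain ⟨J2, hJ2⟩ := hL'' z
    refine mid_mono (Set.inter_subset_inter hM' hN') ?_
    exact main (max J1 J2) M' N' hU' hU'' hD' hD'' (hJ1 _ (le_max_left _ _)) (hJ2 _ (le_max_right _ _)) f hf1 hf2

/-- **Intersection of monomial ideals of a permutable regular sequence.** -/
theorem mid_inf {φ : ι → A} {S : Finset ι} (hP : PR φ S) {M N : Set (ι → ℕ)} (hM : Up M) (hN : Up N) (hDM : Det S M)
    (hDN : Det S N) : mid φ M ⊓ mid φ N = mid φ (M ∩ N) :=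
  le_antisymm (mid_inf_aux φ S hP M N hM hN hDM hDN)
    (le_inf (mid_mono Set.inter_subset_left) (mid_mono Set.inter_subset_right))

/-- The exponents `b` with `x ≤ ∑ t i * b i`. -/
def half (t : ι → ℝ) (x : ℝ) : Set (ι → ℕ) := {b | x ≤ ∑ i, t i * b i}

theorem half_up {t : ι → ℝ} (ht : ∀ i, 0 ≤ t i) (x : ℝ) : Up (half t x) := by
  intro b hb c hbc
  have hb' : x ≤ ∑ i, t i * b i := hb
  refine le_trans hb' (Finset.sum_le_sum fun i _ => ?_)
  exact mul_le_mul_of_nonneg_left (by exact_mod_cast hbc i) (ht i)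

theorem half_det {t : ι → ℝ} {S : Finset ι} (ht : ∀ i ∉ S, t i = 0) (x : ℝ) : Det S (half t x) := by
  intro b hb
  have hb' : x ≤ ∑ i, t i * b i := hb
  refine le_trans hb' (le_of_eq (Finset.sum_congr rfl fun i _ => ?_))
  by_cases hi : i ∈ S
  · simp [hi]
  · simp [hi, ht i hi]

/-- **Autissier's inclusion.** -/
theorem half_inf {φ : ι → A} {S : Finset ι} (hP : PR φ S) {t u : ι → ℝ} (ht : ∀ i, 0 ≤ t i) (hu : ∀ i, 0 ≤ u i)
    (htS : ∀ i ∉ S, t i = 0) (huS : ∀ i ∉ S, u i = 0) (x y : ℝ) {c d : ℝ} (hc : 0 ≤ c) (hd : 0 ≤ d) :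
    mid φ (half t x) ⊓ mid φ (half u y) ≤ mid φ (half (c • t + d • u) (c * x + d * y)) := by
  rw [mid_inf hP (half_up ht x) (half_up hu y) (half_det htS x) (half_det huS y)]
  refine mid_mono ?_
  rintro b ⟨h1, h2⟩
  have h3 : ∑ i, (c • t + d • u) i * b i = c * (∑ i, t i * b i) + d * ∑ i, u i * b i := by
    rw [Finset.mul_sum, Finset.mul_sum, ← Finset.sum_add_distrib]
    refine Finset.sum_congr rfl fun i _ => ?_
    simp only [Pi.add_apply, Pi.smul_apply, smul_eq_mul]
    ring
  show c * x + d * y ≤ _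
  rw [h3]
  exact add_le_add (mul_le_mul_of_nonneg_left h1 hc) (mul_le_mul_of_nonneg_left h2 hd)

end

end Pool.Agent.RV
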