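import Pool.Agent.Helper11.RV.Mono

/-!
The intersection of monomial ideals, for monomials in the elements of a finset `U` of an arbitrary index type, with the
definitions written out.
-/

namespace Pool.Agent.RV

open Finset

/-- `I_A ∩ I_B = I_(A ∩ B)` for monomial ideals of a sequence which is regular in every order. -/
theorem mono_inf {ι : Type*} [DecidableEq ι] {S : Type*} [CommRing S] (s : ι → S) (U : Finset ι)
    (hs : ∀ T ⊆ U, ∀ i ∈ U, i ∉ T → ∀ r : S, s i * r ∈ Ideal.span (s '' (T : Set ι)) →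
      r ∈ Ideal.span (s '' (T : Set ι)))
    (A B : Set (ι → ℕ)) (hA : ∀ α ∈ A, ∀ β, (∀ i ∈ U, α i ≤ β i) → β ∈ A)
    (hB : ∀ α ∈ B, ∀ β, (∀ i ∈ U, α i ≤ β i) → β ∈ B) :
    Ideal.span ((fun α : ι → ℕ => ∏ i ∈ U, s i ^ α i) '' A) ⊓ Ideal.span ((fun α : ι → ℕ => ∏ i ∈ U, s i ^ α i) '' B) =
      Ideal.span ((fun α : ι → ℕ => ∏ i ∈ U, s i ^ α i) '' (A ∩ B)) := by
  classical
  -- extension by zero and restriction
  let ext : (U → ℕ) → (ι → ℕ) := fun b i => if h : i ∈ U then b ⟨i, h⟩ else 0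
  have hext : ∀ (b : U → ℕ) (i : U), ext b i = b i := by
    intro b i
    simp [ext]
  have key : ∀ C : Set (ι → ℕ), (∀ α ∈ C, ∀ β, (∀ i ∈ U, α i ≤ β i) → β ∈ C) →
      Ideal.span ((fun α : ι → ℕ => ∏ i ∈ U, s i ^ α i) '' C) = mid (fun i : U => s i) {b | ext b ∈ C} := by
    intro C hC
    unfold mid
    congr 1
    ext x
    constructor
    · rintro ⟨α, hα, rfl⟩
      refine ⟨fun i => α i, hC α hα _ fun i hi => ?_, ?_⟩
      · simp [ext, hi]
      · unfold mon
        exact Finset.prod_coe_sort U fun i => s i ^ α i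
    · rintro ⟨b, hb, rfl⟩
      refine ⟨ext b, hb, ?_⟩
      unfold mon
      simp only
      rw [← Finset.prod_coe_sort U fun i => s i ^ ext b i]
      exact Finset.prod_congr rfl fun i _ => by rw [hext]
  have hP : PR (fun i : U => s i) Finset.univ := by
    intro i _ T _ hiT a ha
    have e : (fun i : U => s i) '' (T : Set U) = s '' ((T.map (Function.Embedding.subtype _) : Finset ι) : Set ι) := by
      rw [Finset.coe_map, Set.image_image]
      rfl
    rw [e] at ha ⊢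
    refine hs _ ?_ i i.2 ?_ a ha
    · intro j hj
      obtain ⟨j', _, rfl⟩ := Finset.mem_map.1 hj
      exact j'.2
    · intro hj
      obtain ⟨j', hj', h⟩ := Finset.mem_map.1 hj
      exact hiT (Subtype.ext h ▸ hj')
  have hup : ∀ C : Set (ι → ℕ), (∀ α ∈ C, ∀ β, (∀ i ∈ U, α i ≤ β i) → β ∈ C) → Up {b : U → ℕ | ext b ∈ C} := by
    intro C hC b hb c hbc
    refine hC _ hb _ fun i hi => ?_
    have : b ⟨i, hi⟩ ≤ c ⟨i, hi⟩ := hbc ⟨i, hi⟩
    simpa [ext, hi] using this
  have hdet : ∀ M : Set (U → ℕ), Det Finset.univ M := by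
    intro M b hb
    simpa using hb
  have hAB : ∀ α ∈ A ∩ B, ∀ β, (∀ i ∈ U, α i ≤ β i) → β ∈ A ∩ B :=
    fun α hα β hβ => ⟨hA α hα.1 β hβ, hB α hα.2 β hβ⟩
  rw [key A hA, key B hB, key _ hAB, mid_inf hP (hup A hA) (hup B hB) (hdet _) (hdet _)]
  rfl

end Pool.Agent.RV
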