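import Mathlib

/-!
A regular sequence in a Noetherian local ring is regular in every order, modulo any subset.
-/

namespace Pool.Agent.RV

open RingTheory.Sequence IsLocalRing

/-- For a sequence of elements of the maximal ideal of a Noetherian local ring which is (weakly) regular in some
order, each member is a nonzerodivisor modulo the ideal generated by any set of others. -/
theorem reg_of_isRegular {A : Type*} [CommRing A] [IsLocalRing A] [IsNoetherianRing A] {ι : Type*} [DecidableEq ι]
    (s : ι → A) (l : List ι) (hl : l.Nodup) (h : IsWeaklyRegular A (l.map s)) (hm : ∀ i ∈ l, s i ∈ maximalIdeal A) :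
    ∀ T ⊆ l.toFinset, ∀ i ∈ l.toFinset, i ∉ T → ∀ r : A, s i * r ∈ Ideal.span (s '' (T : Set ι)) →
      r ∈ Ideal.span (s '' (T : Set ι)) := by
  classical
  intro T hT i hi hiT r hr
  -- the new order: first `T`, then `i`, then the rest
  let R : Finset ι := (l.toFinset \ T).erase i
  have hperm : l.Perm (T.toList ++ ([i] ++ R.toList)) := by
    rw [List.perm_ext_iff_of_nodup hl]
    · intro j
      simp only [List.mem_append, Finset.mem_toList, List.mem_singleton, R, Finset.mem_erase, Finset.mem_sdiff,
        List.mem_toFinset]
      constructor
      · intro hj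
        by_cases h1 : j ∈ T
        · exact Or.inl h1
        · by_cases h2 : j = i
          · exact Or.inr (Or.inl h2)
          · exact Or.inr (Or.inr ⟨h2, hj, h1⟩)
      · rintro (h1 | h1 | h1)
        · exact List.mem_toFinset.1 (hT h1)
        · rw [h1]; exact List.mem_toFinset.1 hi
        · exact h1.2.1
    · rw [List.nodup_append]
      refine ⟨T.nodup_toList, ?_, ?_⟩
      · rw [List.nodup_append]
        refine ⟨List.nodup_singleton _, R.nodup_toList, ?_⟩
        intro a ha b hb hab
        rw [List.mem_singleton] at ha
        subst ha; subst hab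
        exact (Finset.mem_erase.1 (Finset.mem_toList.1 hb)).1 rfl
      · intro a ha b hb hab
        subst hab
        rw [Finset.mem_toList] at ha
        rcases List.mem_append.1 hb with hb | hb
        · rw [List.mem_singleton] at hb
          subst hb
          exact hiT ha
        · rw [Finset.mem_toList] at hb
          exact (Finset.mem_sdiff.1 (Finset.mem_erase.1 hb).2).2 ha
  have h1 : IsWeaklyRegular A ((T.toList ++ ([i] ++ R.toList)).map s) := by
    refine isWeaklyRegular_of_perm_of_subset_maximalIdeal h (hperm.map s) ?_
    intro x hx
    obtain ⟨j, hj, rfl⟩ := List.mem_map.1 hx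
    exact hm j hj
  rw [List.map_append, List.map_append, isWeaklyRegular_append_iff, isWeaklyRegular_append_iff] at h1
  have h2 := h1.2.1
  rw [List.map_singleton, isWeaklyRegular_singleton_iff] at h2
  have e : (Ideal.ofList (T.toList.map s) • ⊤ : Submodule A A) = Ideal.span (s '' (T : Set ι)) := by
    rw [Ideal.smul_eq_mul, Ideal.mul_top]
    unfold Ideal.ofList
    congr 1
    ext x
    simp [List.mem_map]
  have h3 : s i • (Submodule.Quotient.mk r : A ⧸ (Ideal.ofList (T.toList.map s) • ⊤ : Submodule A A)) = 0 := by
    rw [← Submodule.Quotient.mk_smul, Submodule.Quotient.mk_eq_zero, e]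
    exact hr
  have h4 : (Submodule.Quotient.mk r : A ⧸ (Ideal.ofList (T.toList.map s) • ⊤ : Submodule A A)) = 0 := by
    apply h2
    simp only
    rw [h3, smul_zero]
  rw [Submodule.Quotient.mk_eq_zero, e] at h4
  exact h4

end Pool.Agent.RV
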